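import Pool.Agent.Helper65.LT.Pc

/-!
PROJECT LT, piece P15d: multiplication of the period function with the basis functions.
-/

namespace Pool.Agent.Helper15.LT

open Pool.Agent.Helper34.LT Pool.Agent.Helper65.LT Finset Complex Filter Topology

theorem phs_mul' {q a b : ℕ} (hq : q.Prime) (hab : ¬ q ∣ a + b) (ph : ℂ → ℂ)
    (H : ℕ → ℂ → ℂ) (hd : ∀ k, Differentiable ℂ (H k))
    (hH : ∀ s : ℂ, s ≠ 0 → ‖s‖ < 1 → ph s =
      ∑ k ∈ range q, H k (s ^ (-(q : ℤ))) * (exp (-(Real.pi * I * (al q b k : ℂ))) * w0 q a b k s))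
    (n : ℕ) (hn : sg q a b n) :
    ∃ E : ℕ → ℂ → ℂ, (∀ k, Differentiable ℂ (E k)) ∧ ∀ s : ℂ, s ≠ 0 → ‖s‖ < 1 →
      ph s * ww q a b n s = ∑ k ∈ range q, E k (s ^ (-(q : ℤ))) * w0 q a b k s := by
  choose Ew hEd hEw using fun k => w0_mul (q := q) (a := a) (b := b) hq.ne_zero k (cls q a b n)
  refine ⟨fun j x => ∑ k ∈ (range q).filter (fun k => (k + cls q a b n) % q = j),
    H k x * exp (-(Real.pi * I * (al q b k : ℂ))) * x ^ ((n - Nk q a b (cls q a b n)) / q) *
      Ew k x, ?_, ?_⟩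
  · intro j
    exact Differentiable.fun_sum fun k _ =>
      (((hd k).mul_const _).mul (differentiable_id.pow _)).mul (hEd k)
  · intro s h0 h1
    rw [hH s h0 h1, ww_sg hq hab hn h0 h1, Finset.sum_mul]
    rw [← Finset.sum_fiberwise_of_maps_to (s := range q) (t := range q)
      (g := fun k => (k + cls q a b n) % q) (fun k _ => mem_range.2 (Nat.mod_lt _ hq.pos))]
    refine Finset.sum_congr rfl fun j _ => ?_
    rw [Finset.sum_mul]
    refine Finset.sum_congr rfl fun k hk => ?_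
    have hj := (Finset.mem_filter.1 hk).2
    rw [← hj]
    have h2 := hEw k s h0 h1
    linear_combination (H k (s ^ (-(q : ℤ))) * exp (-(Real.pi * I * (al q b k : ℂ))) *
      (s ^ (-(q : ℤ))) ^ ((n - Nk q a b (cls q a b n)) / q)) * h2

end Pool.Agent.Helper15.LT
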