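import Pool.Agent.Helper65.LT.Pa

/-!
PROJECT LT, piece P5: branches of the logarithm of `1 - x` on the half planes.
-/

namespace Pool.Agent.Helper15.LT

open Pool.Agent.Helper34.LT Pool.Agent.Helper65.LT Finset Complex Filter Topology

private theorem P5_aux {x w : ℂ} (hx : x ≠ 0) (h1 : 1 - x ≠ 0) (h2 : 1 - x⁻¹ ≠ 0) (b : ℂ)
    (hw : Complex.exp w = -1) (hm : -Real.pi < (log x + log (1 - x⁻¹) + w).im)
    (hm' : (log x + log (1 - x⁻¹) + w).im ≤ Real.pi) :
    (1 - x) ^ b = exp (w * b) * (x ^ b * (1 - x⁻¹) ^ b) := by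
  have h3 : log (1 - x) = log x + log (1 - x⁻¹) + w := by
    rw [← Complex.log_exp hm hm', Complex.exp_add, Complex.exp_add, Complex.exp_log hx,
      Complex.exp_log h2, hw]
    congr 1
    field_simp
    ring
  rw [Complex.cpow_def_of_ne_zero hx, Complex.cpow_def_of_ne_zero h1,
    Complex.cpow_def_of_ne_zero h2, h3, ← Complex.exp_add, ← Complex.exp_add]
  congr 1
  ring

private theorem P5_inv_im (x : ℂ) (hx : x ≠ 0) :
    ∃ c : ℝ, 0 < c ∧ (1 - x⁻¹).im = c * x.im := by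
  refine ⟨(Complex.normSq x)⁻¹, inv_pos.2 (Complex.normSq_pos.2 hx), ?_⟩
  rw [Complex.sub_im, Complex.inv_im, Complex.one_im]
  ring

theorem one_sub_cpow_pos' {x : ℂ} (h : 0 < x.im) (b : ℂ) :
    (1 - x) ^ b = exp (-(Real.pi * I * b)) * (x ^ b * (1 - x⁻¹) ^ b) := by
  have hx : x ≠ 0 := by
    rintro rfl
    simp at h
  have h1 : 1 - x ≠ 0 := by
    intro h0
    have h2 := congrArg Complex.im h0
    rw [Complex.sub_im, Complex.one_im, Complex.zero_im] at h2
    linarith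
  obtain ⟨c, hc, he⟩ := P5_inv_im x hx
  have him : 0 < (1 - x⁻¹).im := by rw [he]; positivity
  have h2 : 1 - x⁻¹ ≠ 0 := by
    intro h0
    rw [h0] at him
    simp at him
  have e1 : 0 < arg x := lt_of_le_of_ne (arg_nonneg_iff.2 h.le) fun h0 =>
    h.ne' (arg_eq_zero_iff.1 h0.symm).2
  have e2 := arg_le_pi x
  have e3 : 0 < arg (1 - x⁻¹) := lt_of_le_of_ne (arg_nonneg_iff.2 him.le) fun h0 =>
    him.ne' (arg_eq_zero_iff.1 h0.symm).2
  have e4 := arg_le_pi (1 - x⁻¹)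
  have e5 : (log x + log (1 - x⁻¹) + -(Real.pi * I)).im = arg x + arg (1 - x⁻¹) - Real.pi := by
    simp [Complex.log_im]
    ring
  have h3 := P5_aux hx h1 h2 b (w := -(Real.pi * I))
    (by rw [Complex.exp_neg, Complex.exp_pi_mul_I]; norm_num)
    (by rw [e5]; linarith) (by rw [e5]; linarith)
  rw [h3]
  congr 2
  ring

theorem one_sub_cpow_neg' {x : ℂ} (h : x.im < 0) (b : ℂ) :
    (1 - x) ^ b = exp (Real.pi * I * b) * (x ^ b * (1 - x⁻¹) ^ b) := by
  have hx : x ≠ 0 := by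
    rintro rfl
    simp at h
  have h1 : 1 - x ≠ 0 := by
    intro h0
    have h2 := congrArg Complex.im h0
    rw [Complex.sub_im, Complex.one_im, Complex.zero_im] at h2
    linarith
  obtain ⟨c, hc, he⟩ := P5_inv_im x hx
  have him : (1 - x⁻¹).im < 0 := by rw [he]; exact mul_neg_of_pos_of_neg hc h
  have h2 : 1 - x⁻¹ ≠ 0 := by
    intro h0
    rw [h0] at him
    simp at him
  have e1 : arg x < 0 := arg_neg_iff.2 h
  have e2 := neg_pi_lt_arg x
  have e3 : arg (1 - x⁻¹) < 0 := arg_neg_iff.2 him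
  have e4 := neg_pi_lt_arg (1 - x⁻¹)
  have e5 : (log x + log (1 - x⁻¹) + Real.pi * I).im = arg x + arg (1 - x⁻¹) + Real.pi := by
    simp [Complex.log_im]
  exact P5_aux hx h1 h2 b (w := Real.pi * I) Complex.exp_pi_mul_I
    (by rw [e5]; linarith) (by rw [e5]; linarith)

end Pool.Agent.Helper15.LT
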